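import Mathlib

set_option autoImplicit false

/-! Products of consecutive primes in `(Y, 8 Y]`. -/

namespace Pool.Agent.helper391_OM

open Finset Filter

/-- Chebyshev's lower bound, simplified. -/
theorem theta_lower : ∃ n₀ : ℕ, ∀ n : ℕ, n₀ ≤ n → (n : ℝ) / 3 ≤ Chebyshev.theta n := by
  have h1 := (isLittleO_log_rpow_atTop (show (0 : ℝ) < 1 / 4 by norm_num)).def
    (show (0 : ℝ) < 1 / 1000 by norm_num)
  have hcast : Tendsto (fun k : ℕ => (k : ℝ)) atTop atTop := tendsto_natCast_atTop_atTop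
  have h2 := hcast.eventually h1
  obtain ⟨n₀, hn₀⟩ := eventually_atTop.1 ((h2.and (hcast.eventually_ge_atTop 1000)).and
    ((Real.tendsto_log_atTop.comp hcast).eventually_ge_atTop 1))
  refine ⟨n₀, fun n hn => ?_⟩
  obtain ⟨⟨a1, a2⟩, a3⟩ := hn₀ n hn
  have a3' : 1 ≤ Real.log (n : ℝ) := a3
  refine le_trans ?_ (Chebyshev.theta_ge n)
  have hn0 : (0 : ℝ) < n := by linarith
  set r : ℝ := (n : ℝ) ^ (1 / 4 : ℝ) with hr
  have hr0 : 0 < r := by positivity
  have hr4 : r ^ 4 = n := by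
    rw [hr, ← Real.rpow_natCast, ← Real.rpow_mul hn0.le]; norm_num
  have hsq : Real.sqrt n = r ^ 2 := by
    rw [← hr4, show r ^ 4 = (r ^ 2) ^ 2 by ring, Real.sqrt_sq (by positivity)]
  rw [Real.norm_eq_abs, abs_of_nonneg (by linarith), Real.norm_eq_abs, abs_of_pos hr0] at a1
  have hr1 : 1 ≤ r := by
    by_contra hcon
    push Not at hcon
    have : r ^ 4 < 1 := pow_lt_one₀ hr0.le hcon (by norm_num)
    linarith
  have hlog2 := Real.log_two_gt_d9
  have h3 : Real.log (n + 1) ≤ Real.log n + 1 := by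
    have h4 : Real.log ((n : ℝ) + 1) ≤ Real.log (n * 2) := by
      apply Real.log_le_log (by linarith); linarith
    rw [Real.log_mul (by linarith) (by norm_num)] at h4
    have := Real.log_two_lt_d9
    linarith
  rw [hsq]
  have h5 : r ^ 2 * Real.log n ≤ r ^ 2 * (1 / 1000 * r) := by gcongr
  have h6 : r ^ 3 ≤ r ^ 4 := pow_le_pow_right₀ hr1 (by norm_num)
  have h7 : r ≤ r ^ 4 := by
    calc r = r ^ 1 := (pow_one r).symm
      _ ≤ r ^ 4 := pow_le_pow_right₀ hr1 (by norm_num)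
  have h8 : r ^ 2 * (1 / 1000 * r) = 1 / 1000 * r ^ 3 := by ring
  have h9 : (n : ℝ) * 0.6931 ≤ n * Real.log 2 := by
    apply mul_le_mul_of_nonneg_left _ hn0.le
    linarith
  rw [hr4] at h6 h7
  nlinarith

/-- a squarefree integer with `log d ≤ Y`, with prime factors in `(Y, 8 Y]` and with almost the maximal number of
prime factors -/
theorem exists_d : ∃ Y₀ : ℝ, ∀ Y : ℝ, Y₀ ≤ Y → ∃ d : ℕ, 1 ≤ d ∧ Real.log d ≤ Y ∧
    (∀ p ∈ d.primeFactors, ⌊Y⌋₊ < p) ∧
    Y - Real.log (8 * Y) ≤ d.primeFactors.card * Real.log (8 * Y) := by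
  classical
  obtain ⟨n₀, hn₀⟩ := theta_lower
  refine ⟨n₀ + 10, fun Y hY => ?_⟩
  have hY10 : 10 ≤ Y := by
    have : (0 : ℝ) ≤ n₀ := Nat.cast_nonneg _
    linarith
  set m := ⌊Y⌋₊ with hm
  have hmY : (m : ℝ) ≤ Y := Nat.floor_le (by linarith)
  have hYm : Y < m + 1 := Nat.lt_floor_add_one Y
  have hmn₀ : n₀ ≤ m := by
    have : (n₀ : ℝ) < m + 1 := by linarith
    have : n₀ < m + 1 := by exact_mod_cast this
    omega
  set S : ℕ → ℝ := fun n => ∑ p ∈ (Ioc m n).filter Nat.Prime, Real.log p with hS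
  have htheta : ∀ n : ℕ, m ≤ n → Chebyshev.theta n = Chebyshev.theta m + S n := by
    intro n hn
    unfold Chebyshev.theta
    rw [Nat.floor_natCast, Nat.floor_natCast, hS]
    have h1 : (Ioc 0 n).filter Nat.Prime = (Ioc 0 m).filter Nat.Prime ∪ (Ioc m n).filter Nat.Prime := by
      rw [← Finset.filter_union, Finset.Ioc_union_Ioc_eq_Ioc (Nat.zero_le m) hn]
    rw [h1, Finset.sum_union]
    apply Finset.disjoint_filter_filter
    rw [Finset.disjoint_left]
    intro a ha hb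
    rw [Finset.mem_Ioc] at ha hb
    omega
  have hθm : Chebyshev.theta m ≤ Real.log 4 * m := Chebyshev.theta_le_log4_mul_x (Nat.cast_nonneg _)
  have hlog4 : Real.log 4 ≤ 1.4 := by
    rw [show (4 : ℝ) = 2 ^ 2 by norm_num, Real.log_pow]
    have := Real.log_two_lt_d9
    push_cast
    linarith
  have hbound : ∀ n : ℕ, m ≤ n → S n ≤ Y → (n : ℝ) ≤ 7.2 * Y := by
    intro n hn hSn
    have h1 := hn₀ n (hmn₀.trans hn)
    rw [htheta n hn] at h1
    have h2 : Real.log 4 * m ≤ 1.4 * Y := by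
      have : (0 : ℝ) ≤ m := Nat.cast_nonneg _
      nlinarith
    linarith
  have hex : ∃ n : ℕ, Y < S n := by
    by_contra hcon
    push Not at hcon
    have h1 := hbound (max m (⌈7.2 * Y⌉₊ + 1)) (le_max_left _ _) (hcon _)
    have h2 : 7.2 * Y < ((max m (⌈7.2 * Y⌉₊ + 1) : ℕ) : ℝ) := by
      have h3 : ((⌈7.2 * Y⌉₊ + 1 : ℕ) : ℝ) ≤ ((max m (⌈7.2 * Y⌉₊ + 1) : ℕ) : ℝ) := by
        exact_mod_cast le_max_right _ _
      have h4 := Nat.le_ceil (7.2 * Y)
      push_cast at h3 ⊢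
      linarith
    linarith
  set n₁ := Nat.find hex with hn₁
  have hn₁1 : Y < S n₁ := Nat.find_spec hex
  have hmn₁ : m < n₁ := by
    by_contra hcon
    push Not at hcon
    have : S n₁ = 0 := by
      rw [hS]
      have : Ioc m n₁ = ∅ := Finset.Ioc_eq_empty (by omega)
      simp [this]
    linarith
  obtain ⟨y, hy⟩ : ∃ y, n₁ = y + 1 := ⟨n₁ - 1, by omega⟩
  have hmy : m ≤ y := by omega
  have hSy : S y ≤ Y := by
    have := Nat.find_min hex (show y < Nat.find hex by rw [← hn₁, hy]; omega)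
    linarith [not_lt.1 this]
  have hy72 := hbound y hmy hSy
  have hy8 : ((y : ℝ) + 1) ≤ 8 * Y := by linarith
  have hSS : S n₁ ≤ S y + Real.log (y + 1) := by
    rw [hS, hy]
    have h1 : Ioc m (y + 1) = insert (y + 1) (Ioc m y) := by
      ext a; simp only [Finset.mem_Ioc, Finset.mem_insert]; omega
    show ∑ p ∈ (Ioc m (y + 1)).filter Nat.Prime, Real.log p ≤
      ∑ p ∈ (Ioc m y).filter Nat.Prime, Real.log p + Real.log (y + 1)
    rw [h1, Finset.filter_insert]
    have h0 : 0 ≤ Real.log ((y : ℝ) + 1) := Real.log_nonneg (by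
      have : (0 : ℝ) ≤ y := Nat.cast_nonneg _
      linarith)
    split_ifs with h
    · rw [Finset.sum_insert (by
        rw [Finset.mem_filter, Finset.mem_Ioc]; omega)]
      push_cast
      linarith
    · linarith
  have hlogle : Real.log ((y : ℝ) + 1) ≤ Real.log (8 * Y) := by
    apply Real.log_le_log _ hy8
    have : (0 : ℝ) ≤ y := Nat.cast_nonneg _
    linarith
  set P := (Ioc m y).filter Nat.Prime with hP
  have hPp : ∀ p ∈ P, p.Prime := fun p hp => (Finset.mem_filter.1 hp).2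
  refine ⟨∏ p ∈ P, p, ?_, ?_, ?_, ?_⟩
  · exact Nat.one_le_iff_ne_zero.2 (Finset.prod_ne_zero_iff.2 (fun p hp => (hPp p hp).ne_zero))
  · push_cast
    rw [Real.log_prod (fun p hp => by exact_mod_cast (hPp p hp).ne_zero)]
    exact hSy
  · rw [Nat.primeFactors_prod hPp]
    intro p hp
    exact (Finset.mem_Ioc.1 (Finset.mem_filter.1 hp).1).1
  · rw [Nat.primeFactors_prod hPp]
    have h1 : S y ≤ P.card * Real.log (8 * Y) := by
      have h2 : S y ≤ ∑ p ∈ P, Real.log (8 * Y) := by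
        apply Finset.sum_le_sum
        intro p hp
        apply Real.log_le_log (by exact_mod_cast (hPp p hp).pos)
        have h3 : p ≤ y := (Finset.mem_Ioc.1 (Finset.mem_filter.1 hp).1).2
        have h4 : (p : ℝ) ≤ y := by exact_mod_cast h3
        linarith
      rwa [Finset.sum_const, nsmul_eq_mul] at h2
    linarith

end Pool.Agent.helper391_OM
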