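import Mathlib
import Pool.Agent.Results.MP_3bc45c_nt.RecordGapsAtPrescribedPlaces
import Pool.Agent.helper391_DG.Ana
import Pool.Agent.helper391_PT.Main
import Pool.Agent.helper391_OM.Prod

set_option autoImplicit false

/-! Record gaps around integers with almost the maximal number of prime factors. -/

namespace Pool.Agent.helper391_OM

open Finset Filter
open Pool.Agent.helper391_DG Pool.Agent.helper391_PT

theorem main (θ δ : ℝ) (hδ : 0 < δ) (hδθ : δ < θ) (hθ : θ ≤ 1) :
    ∃ κ : ℝ, 0 < κ ∧ ∃ M₀ : ℕ, ∀ M : ℕ, M₀ ≤ M → ∃ n : ℕ, M < n ∧ (n : ℝ) ≤ M + (M : ℝ) ^ θ ∧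
      (θ - δ) * Real.log M / Real.log (Real.log M) ≤ n.primeFactors.card ∧
      ∀ p : ℕ, p.Prime → κ * F (Real.log M) < |(p : ℝ) - n| := by
  have hθ0 : 0 < θ := by linarith
  set δ' : ℝ := δ / (2 * θ) with hδ'
  have hδ'0 : 0 < δ' := by positivity
  have hδ'1 : δ' < 1 := by
    rw [hδ', div_lt_one (by positivity)]; linarith
  obtain ⟨c, hc, x₀, hbb⟩ := Pool.Agent.Results.MP_3bc45c_nt.RecordGapsAtPrescribedPlaces.result
    δ' 4 hδ'0 hδ'1 (by norm_num)
  obtain ⟨R, hR⟩ := F_scale θ hθ0
  obtain ⟨Y₀, hY₀⟩ := exists_d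
  have hcast : Tendsto (fun M : ℕ => (M : ℝ)) atTop atTop := tendsto_natCast_atTop_atTop
  have hlogM : Tendsto (fun M : ℕ => Real.log (M : ℝ)) atTop atTop :=
    Real.tendsto_log_atTop.comp hcast
  have hllM : Tendsto (fun M : ℕ => Real.log (Real.log (M : ℝ))) atTop atTop :=
    Real.tendsto_log_atTop.comp hlogM
  have hxM : Tendsto (fun M : ℕ => (M : ℝ) ^ θ) atTop atTop := (tendsto_rpow_atTop hθ0).comp hcast
  set a : ℝ := Real.log 8 with ha
  have ha0 : 0 < a := Real.log_pos (by norm_num)
  -- `log L` is small against `L`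
  have hsmall : ∀ᶠ M : ℕ in atTop, Real.log (Real.log (M : ℝ)) + a ≤ δ / 4 * Real.log (M : ℝ) := by
    have h1 := Real.isLittleO_log_id_atTop.def (show (0 : ℝ) < δ / 8 by positivity)
    have h2 := hlogM.eventually h1
    filter_upwards [h2, hllM.eventually_ge_atTop 0, hlogM.eventually_ge_atTop (8 * a / δ),
      hlogM.eventually_ge_atTop 1] with M b1 b2 b3 b4
    rw [Real.norm_eq_abs, abs_of_nonneg b2, id, Real.norm_eq_abs, abs_of_nonneg (by linarith)] at b1
    rw [div_le_iff₀ hδ] at b3
    linarith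
  obtain ⟨M₀, hM₀⟩ := eventually_atTop.1 (((((hxM.eventually_ge_atTop x₀).and
    (hlogM.eventually_ge_atTop (max R (max (2 * Y₀ / θ) (100 / θ))))).and
      (hllM.eventually_ge_atTop (max (4 * a / δ) (10 + 2 * |Real.log θ|)))).and hsmall).and
        (eventually_ge_atTop 2))
  refine ⟨c * (Real.exp (-4) * (θ / 8)), by positivity, M₀, fun M hM => ?_⟩
  obtain ⟨⟨⟨⟨b1, b2⟩, b3⟩, b4⟩, b5⟩ := hM₀ M hM
  have hM2 : (2 : ℝ) ≤ M := by exact_mod_cast b5
  have hM0 : (0 : ℝ) < M := by linarith
  set x : ℝ := (M : ℝ) ^ θ with hx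
  set L := Real.log (M : ℝ) with hL
  set l := Real.log L with hl
  have hLR : R ≤ L := (le_max_left _ _).trans b2
  have hLY : 2 * Y₀ / θ ≤ L := ((le_max_left _ _).trans (le_max_right _ _)).trans b2
  have hL100 : 100 / θ ≤ L := ((le_max_right _ _).trans (le_max_right _ _)).trans b2
  have hl1 : 4 * a / δ ≤ l := (le_max_left _ _).trans b3
  have hl2 : 10 + 2 * |Real.log θ| ≤ l := (le_max_right _ _).trans b3
  have hl10 : 10 ≤ l := by
    have := abs_nonneg (Real.log θ)
    linarith
  have hL0 : 0 < L := lt_of_lt_of_le (by positivity) hL100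
  have hlx : Real.log x = θ * L := by rw [hx, Real.log_rpow hM0]
  set Y : ℝ := (θ - δ / 2) * L with hY
  have hθL : 100 ≤ θ * L := by
    rw [div_le_iff₀ hθ0] at hL100; linarith
  have hYθ : θ * L / 2 ≤ Y := by
    rw [hY]
    have : θ / 2 * L ≤ (θ - δ / 2) * L := by
      apply mul_le_mul_of_nonneg_right _ hL0.le
      linarith
    linarith
  have hYL : Y ≤ L := by
    rw [hY]
    have : (θ - δ / 2) * L ≤ 1 * L := by
      apply mul_le_mul_of_nonneg_right _ hL0.le
      linarith
    linarith
  have hY0 : 50 ≤ Y := by linarith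
  obtain ⟨d, hd1, hd2, hd3, hd4⟩ := hY₀ Y (by
    rw [div_le_iff₀ hθ0] at hLY
    linarith)
  have hd0 : d ≠ 0 := by omega
  have hdR : (0 : ℝ) < d := by exact_mod_cast hd1
  set K := ⌊Y⌋₊ with hK
  have hKY : (K : ℝ) ≤ Y := Nat.floor_le (by linarith)
  have hYK : Y < K + 1 := Nat.lt_floor_add_one Y
  have hK2 : Y / 2 ≤ K := by linarith
  have hK2' : 2 ≤ K := by
    have : (2 : ℝ) ≤ K := by linarith
    exact_mod_cast this
  have hKpos : (0 : ℝ) < K := by linarith
  -- `log K ≥ (log log x) / 2`
  have hll : Real.log (Real.log x) = Real.log θ + l := by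
    rw [hlx, Real.log_mul hθ0.ne' hL0.ne']
  have habs := abs_le.1 (le_refl |Real.log θ|)
  have hllx5 : 5 ≤ Real.log (Real.log x) := by
    rw [hll]
    linarith [habs.1]
  have hlogK : Real.log (Real.log x) / 2 ≤ Real.log K := by
    have h1 : Real.log (Real.log x / 4) ≤ Real.log K := by
      apply Real.log_le_log
      · rw [hlx]; linarith
      · rw [hlx]; linarith
    rw [Real.log_div (by rw [hlx]; linarith) (by norm_num)] at h1
    have h2 : Real.log 4 ≤ 2 := by
      rw [show (4 : ℝ) = 2 ^ 2 by norm_num, Real.log_pow]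
      have := Real.log_two_lt_d9
      push_cast; linarith
    linarith
  have hlogK1 : 1 ≤ Real.log K := by linarith
  -- the prime factors of `d`
  have hfil : d.primeFactors.filter (fun p => K < p) = d.primeFactors :=
    Finset.filter_true_of_mem (fun p hp => hd3 p hp)
  have hsum : ∑ p ∈ d.primeFactors, 1 / (p : ℝ) ≤ 2 / Real.log K := by
    have h1 := large d K hd0 hK2'
    rw [hfil] at h1
    refine h1.trans ?_
    rw [div_le_div_iff₀ (by positivity) (by linarith)]
    have h2 : Real.log d ≤ 2 * K := by linarith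
    calc Real.log d * Real.log K ≤ (2 * K) * Real.log K := by gcongr
      _ = 2 * (K * Real.log K) := by ring
  have hcond : (∑ p ∈ d.primeFactors with
      Real.exp (Real.log (Real.log x) * Real.log (Real.log (Real.log (Real.log x))) /
        (20 * Real.log (Real.log (Real.log x)))) < ((p : ℕ) : ℝ), 1 / ((p : ℕ) : ℝ)) ≤
      4 / Real.log (Real.log x) := by
    refine (Finset.sum_le_sum_of_subset_of_nonneg (Finset.filter_subset _ _)
      (fun _ _ _ => by positivity)).trans (hsum.trans ?_)
    rw [div_le_div_iff₀ (by linarith) (by linarith)]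
    linarith
  have htot : Real.exp (-4) ≤ (Nat.totient d : ℝ) / d := by
    refine le_trans ?_ (tot_exp d hd0)
    apply Real.exp_le_exp.2
    have h1 : 2 / Real.log K ≤ 2 := by
      rw [div_le_iff₀ (by linarith)]; linarith
    linarith
  have hsize : (d : ℝ) ≤ x ^ (1 - δ') := by
    rw [← Real.log_le_log_iff hdR (by positivity), Real.log_rpow (by positivity), hlx]
    refine hd2.trans (le_of_eq ?_)
    rw [hY, hδ']
    field_simp
  obtain ⟨n, hn1, hn2, hn3, hn4⟩ := hbb x b1 d hd1 hsize hcond 0 M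
  have hdn : d ∣ n := Nat.modEq_zero_iff_dvd.1 hn1
  have hn0 : n ≠ 0 := by omega
  refine ⟨n, hn2, hn3, ?_, ?_⟩
  · have h1 : (d.primeFactors.card : ℝ) ≤ n.primeFactors.card := by
      exact_mod_cast Finset.card_le_card (Nat.primeFactors_mono hdn hn0)
    refine le_trans ?_ h1
    set w := Real.log (8 * Y) with hw
    have hw0 : 0 < w := Real.log_pos (by linarith)
    have hwl : w ≤ l + a := by
      rw [hw, Real.log_mul (by norm_num) (by linarith)]
      have : Real.log Y ≤ l := Real.log_le_log (by linarith) hYL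
      linarith
    rw [div_le_iff₀ (by linarith)]
    have h2 : (Y - w) / w ≤ d.primeFactors.card := by
      rw [div_le_iff₀ hw0]; exact hd4
    have h3 : (θ - δ) * L ≤ (Y - w) / w * l := by
      rw [div_mul_eq_mul_div, le_div_iff₀ hw0]
      have hl0 : 0 < l := by linarith
      have e1 : a ≤ δ / 4 * l := by
        rw [div_le_iff₀ hδ] at hl1; linarith
      have e2 : (θ - δ) * L * w ≤ (θ - δ) * L * (l + a) := by
        apply mul_le_mul_of_nonneg_left hwl
        have : 0 ≤ θ - δ := by linarith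
        positivity
      have e3 : l * w ≤ l * (δ / 4 * L) := by
        apply mul_le_mul_of_nonneg_left _ hl0.le
        linarith
      have e4 : (θ - δ) * L * a ≤ L * (δ / 4 * l) := by
        calc (θ - δ) * L * a ≤ 1 * L * a := by
              gcongr; linarith
          _ = L * a := by ring
          _ ≤ L * (δ / 4 * l) := by gcongr
      have e5 : (Y - w) * l = (θ - δ / 2) * L * l - l * w := by rw [hY]; ring
      have e6 : (θ - δ) * L * (l + a) = (θ - δ) * L * l + (θ - δ) * L * a := by ring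
      have e7 : L * (δ / 4 * l) = δ / 4 * (L * l) := by ring
      have e8 : l * (δ / 4 * L) = δ / 4 * (L * l) := by ring
      have e9 : (θ - δ) * L * l = (θ - δ / 2) * L * l - δ / 2 * (L * l) := by ring
      rw [e5]
      linarith
    refine h3.trans ?_
    apply mul_le_mul_of_nonneg_right h2 (by linarith)
  · intro p hp
    refine lt_of_le_of_lt ?_ (hn4 p hp)
    obtain ⟨hF1, hF2⟩ := hR L hLR (Real.log x) hlx.ge (by
      rw [hlx]
      calc θ * L ≤ 1 * L := mul_le_mul_of_nonneg_right hθ hL0.le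
        _ = L := one_mul L)
    have h3 : F (Real.log x) = Real.log x * (Real.log (Real.log x)) ^ 2 *
          Real.log (Real.log (Real.log (Real.log x))) / (Real.log (Real.log (Real.log x))) ^ 2 := rfl
    rw [← h3]
    calc c * (Real.exp (-4) * (θ / 8)) * F L
        = c * (Real.exp (-4) * (θ / 8 * F L)) := by ring
      _ ≤ c * ((Nat.totient d : ℝ) / d * F (Real.log x)) := by
          gcongr

end Pool.Agent.helper391_OM
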